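import Pool.Agent.H34.N6V.Targets
import Pool.Agent.H34.N6.LibC

/-!
# Row VGF: almost all places are good
-/

set_option autoImplicit false

open Polynomial NumberField IsDedekindDomain Pool.Agent.H32.QC Pool.Agent.H34.N6
  Pool.Agent.H13.DEV Pool.Agent.H34.N6V

namespace Pool.Agent.H1.N6V

theorem pf_GF : T_GF := by
  intro k ι _ _ _ P E D hF hD
  have hcop : Pairwise fun i j => IsCoprime (P i) (P j) := by
    intro i j hij
    obtain ⟨a, ha⟩ := hF.zero i j hij
    obtain ⟨b, hb⟩ := hF.one j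
    refine ⟨a, -b, ?_⟩
    linear_combination -ha + hb
  have hsep : ∀ j, (P j).Separable := fun j => (hF.irr j).separable
  have hPD : ∀ j, IsCoprime (P j) D := fun j =>
    (EuclideanDomain.dvd_or_coprime (P j) D (hF.irr j)).resolve_left (hD j)
  have h1 := bad_fin (separable_prod hcop hsep) (IsCoprime.prod_left fun j _ => hPD j)
  have h2 : {v : FPl k | ¬ GoodF P E D v} ⊆ {v : FPl k | ¬ GoodAt (∏ j, P j) D v} ∪
      ((⋃ j, {v : FPl k | ¬ GoodAt (P j) D v}) ∪ ⋃ j, {v : FPl k | ¬ Int v (E j)}) := by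
    intro v hv
    by_contra hcon
    simp only [Set.mem_union, Set.mem_iUnion, Set.mem_setOf_eq, not_or, not_exists,
      not_not] at hcon
    exact hv ⟨hcon.1, hcon.2.1, hcon.2.2⟩
  exact (h1.union ((Set.finite_iUnion fun j => bad_fin (hsep j) (hPD j)).union
    (Set.finite_iUnion fun j => poly_int_fin (E j)))).subset h2

end Pool.Agent.H1.N6V
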